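import Pool.Agent.Y690.PP.Stm2

/-!
# Project JP, part 2: multiquadratic number fields

Statements of the jobs.  `G = ℤ[i]`, `la = 1 + i`.
-/

set_option autoImplicit false

open Finset NumberField IsDedekindDomain

namespace Pool.Agent.Y690.JP.MF

open Pool.Agent.Y690.PP Pool.Agent.Y690.PP.Fn

section

variable {F : Type} [Field F] [NumberField F]

/-- `F` is generated over `ℚ(i)` (embedded by `ι`) by square roots of the elements of `s`. -/
def Generated (ι : G →+* 𝓞 F) (s : Finset G) : Prop :=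
  ∃ r : G → 𝓞 F, (∀ d ∈ s, r d ^ 2 = ι d) ∧
    ∀ L : Subfield F, (∀ g : G, (ι g : F) ∈ L) → (∀ d ∈ s, (r d : F) ∈ L) → L = ⊤

/-- the number of elements of the residue field `k_v` -/
noncomputable def qv (v : HeightOneSpectrum (𝓞 F)) : ℕ := Ideal.absNorm v.asIdeal

/-- `#E(k_v)`, with the point at infinity, for `E : y² = x³ - D² x`. -/
noncomputable def points (ι : G →+* 𝓞 F) (D : G) (v : HeightOneSpectrum (𝓞 F)) : ℕ :=
  Nat.card {P : (𝓞 F ⧸ v.asIdeal) × (𝓞 F ⧸ v.asIdeal) // P.2 ^ 2 =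
    P.1 ^ 3 - Ideal.Quotient.mk v.asIdeal (ι (D ^ 2)) * P.1} + 1

/-- The curve `y² = x³ - D² x` over `F`. -/
noncomputable def curve (ι : G →+* 𝓞 F) (D : G) : WeierstrassCurve.Affine F :=
  WeierstrassCurve.toAffine { a₁ := 0, a₂ := 0, a₃ := 0, a₄ := -((ι D : F) ^ 2), a₆ := 0 }

/-- `L` is entire and it is the `L`-function of `Sym^n E`, `E : y² = x³ - D² x`, over `F`, without the
Euler factors at the places which divide `M`.  Here `α v` and `β v` are the roots of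
`X² - a_v X + q_v`, `a_v = q_v + 1 - #E(k_v)`. -/
def IsSymLFunction (ι : G →+* 𝓞 F) (D M : G) (n : ℕ) (L : ℂ → ℂ) : Prop :=
  Differentiable ℂ L ∧ ∃ α β : {v : HeightOneSpectrum (𝓞 F) // ι M ∉ v.asIdeal} → ℂ,
    (∀ v, α v + β v = (qv v.1 : ℂ) + 1 - points ι D v.1 ∧ α v * β v = qv v.1) ∧
    ∀ z : ℂ, (n : ℝ) / 2 + 1 < z.re →
      HasProd (fun v => (∏ j ∈ range (n + 1), (1 - α v ^ (n - j) * β v ^ j * (qv v.1 : ℂ) ^ (-z)))⁻¹)
        (L z)

end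

/-- MF-FIN: descent to the base field (Kummer theory for the points) -/
def SFIN : Prop :=
  ∀ (F : Type) [Field F] [NumberField F] (ι : G →+* 𝓞 F) (s : Finset G) (D : G), D ≠ 0 →
    (∀ d ∈ s, d ≠ 0) → Generated ι s → (∀ J ⊆ s, GoodP (D * ∏ d ∈ J, d)) →
      Finite (curve ι D).Point

/-- MF-LOC: the number of points over the residue fields -/
def SLOC : Prop :=
  ∀ (F : Type) [Field F] [NumberField F] (ι : G →+* 𝓞 F) (q : Pr) (v : HeightOneSpectrum (𝓞 F)),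
    ι q.1 ∈ v.asIdeal → ∀ D : G, ¬ q.1 ∣ D → ∀ f : ℕ, Ideal.absNorm v.asIdeal = nm q.1 ^ f →
      (qv v : ℂ) + 1 - points ι D v =
        ((qs q.1 D : ℂ) * (q.1 : ℂ)) ^ f + ((qs q.1 D : ℂ) * (starRingEnd ℂ) (q.1 : ℂ)) ^ f

/-- MF-EUL: the Euler product over `F` -/
def SEULF : Prop :=
  SLOC → ∀ (F : Type) [Field F] [NumberField F] (ι : G →+* 𝓞 F) (s : Finset G) (D : G), D ≠ 0 →
    (∀ d ∈ s, d ≠ 0) → la ∣ D → Generated ι s →
    (∀ J ⊆ s, ∃ E e : G, D * ∏ d ∈ J, d = E * e ^ 2 ∧ GoodL E) →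
    ∀ m : ℕ, 1 ≤ m → ∃ L : ℂ → ℂ, IsSymLFunction ι D (D * ∏ d ∈ s, d) (2 * m - 1) L ∧ L m ≠ 0

end Pool.Agent.Y690.JP.MF
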