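import Pool.Agent.Y697.MQ.Cnt
import Pool.Agent.Y690.JP.Stm2

/-!
# The number of points over the residue fields
-/

set_option autoImplicit false

open Finset NumberField IsDedekindDomain

namespace Pool.Agent.Y690.JP.MF

open Pool.Agent.Y690.PP Pool.Agent.Y690.PP.Fn

lemma leg_eq_qs (p a : G) : Pool.Agent.Y697.MQ.leg p a = qs p a := by
  classical
  unfold Pool.Agent.Y697.MQ.leg qs
  simp only [pow_two]

theorem t_LOC : SLOC := by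
  intro F _ _ ι q v hv D hD f hf
  have hq : Pool.Agent.Y697.MQ.OP q.1 := ⟨q.2.1, (Pool.Agent.Y697.MQ.Pr_iff q.1).2 q.2.2⟩
  have hI : IsUnit (⟨0, 1⟩ : G) := IsUnit.of_mul_eq_one (⟨0, -1⟩ : G) (by decide)
  have hD' : ¬ q.1 ∣ (⟨0, 1⟩ * D : G) := by
    intro h
    exact hD ((IsUnit.dvd_mul_left hI).mp h)
  have hqD := Pool.Agent.Y697.MQ.leg_ne hD
  have hci := Pool.Agent.Y697.MQ.ci_ne hq.pm
  have hc : Pool.Agent.Y697.MQ.ci q.1 * Pool.Agent.Y697.MQ.leg q.1 (⟨0, 1⟩ * D) = qs q.1 D := by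
    rw [Pool.Agent.Y697.MQ.leg_mul hq.pr, Pool.Agent.Y697.MQ.leg_I hq, leg_eq_qs, ← mul_assoc]
    rcases hci with h | h <;> rw [h] <;> ring
  have h := Pool.Agent.Y697.MQ.eulerA_z ι hq v hv hD' f hf 0
  rw [hc] at h
  unfold Pool.Agent.Y697.MQ.eulerA at h
  rw [inv_inj] at h
  have hY : ∀ g : G, Pool.Agent.Y697.MQ.Yp 0 g = (g : ℂ) := by
    intro g
    unfold Pool.Agent.Y697.MQ.Yp
    rw [neg_zero, Complex.cpow_zero, mul_one]
  rw [hY, hY, GaussianInt.toComplex_star] at h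
  have hcard : Nat.card {p : (𝓞 F ⧸ v.asIdeal) × (𝓞 F ⧸ v.asIdeal) //
      p.2 ^ 2 = p.1 ^ 3 + Ideal.Quotient.mk v.asIdeal (ι ((⟨0, 1⟩ * D) ^ 2)) * p.1} =
      Nat.card {P : (𝓞 F ⧸ v.asIdeal) × (𝓞 F ⧸ v.asIdeal) // P.2 ^ 2 =
        P.1 ^ 3 - Ideal.Quotient.mk v.asIdeal (ι (D ^ 2)) * P.1} := by
    have e : ((⟨0, 1⟩ : G) * D) ^ 2 = -D ^ 2 := by
      have e1 : ((⟨0, 1⟩ : G)) ^ 2 = -1 := by decide
      rw [mul_pow, e1]
      ring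
    rw [e, map_neg, map_neg]
    refine Nat.card_congr (Equiv.subtypeEquivRight fun p => ?_)
    rw [neg_mul, ← sub_eq_add_neg]
  rw [hcard] at h
  have hN : ((Ideal.absNorm v.asIdeal : ℕ) : ℂ) =
      ((((qs q.1 D : ℤ) : ℂ) * (q.1 : ℂ)) ^ f) *
        ((((qs q.1 D : ℤ) : ℂ) * (starRingEnd ℂ) (q.1 : ℂ)) ^ f) := by
    have h1 : ((qs q.1 D : ℤ) : ℂ) * ((qs q.1 D : ℤ) : ℂ) = 1 := by
      rw [← leg_eq_qs]
      rcases hqD with h | h <;> rw [h] <;> norm_num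
    have h2 : (q.1 : ℂ) * (starRingEnd ℂ) (q.1 : ℂ) = ((nm q.1 : ℕ) : ℂ) := by
      rw [Complex.mul_conj, Pool.Agent.Y697.MQ.normSq_G]
      unfold nm
      norm_num
    rw [← mul_pow, hf]
    have e : ((qs q.1 D : ℤ) : ℂ) * (q.1 : ℂ) * (((qs q.1 D : ℤ) : ℂ) * (starRingEnd ℂ) (q.1 : ℂ)) =
        ((qs q.1 D : ℤ) : ℂ) * ((qs q.1 D : ℤ) : ℂ) * ((q.1 : ℂ) * (starRingEnd ℂ) (q.1 : ℂ)) := by
      ring
    rw [e, h1, h2, one_mul]
    unfold nm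
    push_cast
    rfl
  rw [neg_zero, Complex.cpow_zero, mul_one, mul_zero, sub_zero, Complex.cpow_one, hN] at h
  unfold qv points
  push_cast at h ⊢
  rw [hN] at h ⊢
  linear_combination -h

end Pool.Agent.Y690.JP.MF
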