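import Pool.Agent.Y690.PP.Lab
import Pool.Agent.Y690.PP.Stm2

/-!
# Project JP: the joint distribution of the kernels of several twists.  Statements
-/

set_option autoImplicit false

open Finset

namespace Pool.Agent.Y690.JP

open Pool.Agent.Y690.PP

/-! ## The estimates with several linear characters -/

section gen

variable {P : Type} {X : Type} [AddCommGroup X]

/-- a group of linear characters with values `1`, `-1` -/
structure Lin (ch : X → P → ℝ) : Prop where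
  zero : ∀ p, ch 0 p = 1
  add : ∀ x y p, ch (x + y) p = ch x p * ch y p
  two : ∀ x : X, x + x = 0
  val : ∀ x p, ch x p = 1 ∨ ch x p = -1

/-- the upper bound of the logarithm of the `L`-functions -/
def A3' (N : P → ℕ) (s : P → P → ℝ) (ch : X → P → ℝ) : Prop :=
  ∃ C : ℝ, ∀ (A : Finset P) (x : X), (A.Nonempty ∨ x ≠ 0) → ∀ σ : ℝ, 1 < σ → σ ≤ 2 →
    ∑' p : P, ch x p * (∏ q ∈ A, s q p) * (N p : ℝ) ^ (-σ) ≤ Real.log (1 + Real.log (NN N A)) + C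

variable {I : Type} [Fintype I] [DecidableEq I]

/-- the weight of a family -/
noncomputable def wt (s : P → P → ℝ) (ch : X → P → ℝ) (w : ℝ) (e : I → I → ℕ) (τ : I → X)
    (A : I → Finset P) : ℝ :=
  w ^ (∑ u, #(A u)) * (∏ u, ∏ p ∈ A u, ch (τ u) p) * ∏ u, ∏ v, sy s (A u) (A v) ^ e u v

open Classical in
/-- (a) two linked large sets -/
def SABSa (N : P → ℕ) (s : P → P → ℝ) (ch : X → P → ℝ) (I : Type) [Fintype I] [DecidableEq I]
    (w : ℝ) (e : I → I → ℕ) (τ : I → X) : Prop :=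
  ∀ (Λ : Finset I) (u v : I), u ∈ Λ → v ∈ Λ → u ≠ v → Odd (e u v + e v u) →
    ∃ (C δ : ℝ) (D : ℕ), 0 < δ ∧ ∀ x Z : ℝ, 2 ≤ x → 1 ≤ Z →
      |∑ A ∈ (TT I N x).filter (fun A => ∀ u, u ∈ Λ ↔ Z < NN N (A u)), wt s ch w e τ A| ≤
        C * x * (1 + Real.log x) ^ D * Z ^ (-δ)

open Classical in
/-- (c) the main terms -/
def SABSc (N : P → ℕ) (s : P → P → ℝ) (ch : X → P → ℝ) (I : Type) [Fintype I] [DecidableEq I]
    (w : ℝ) (e : I → I → ℕ) (τ : I → X) : Prop :=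
  ∀ Λ : Finset I, (#Λ : ℝ) * w = 1 → (∀ u ∈ Λ, ∀ v ∈ Λ, Even (e u v + e v u)) →
    (∀ v, v ∉ Λ → (∃ u ∈ Λ, Even (e u v + e v u)) ∧ ∃ u ∈ Λ, Odd (e u v + e v u)) →
    ((∃ u ∈ Λ, τ u ≠ 0) → ∃ u0 ∈ Λ, ∃ u1 ∈ Λ, τ u0 ≠ τ u1) →
    ∃ (C η : ℝ) (D : ℕ), 0 < η ∧ ∀ x Z : ℝ, 4 ≤ x → 2 ≤ Z → Z ^ (2 * Fintype.card I) ≤ x →
      |∑ A ∈ (TT I N x).filter (fun A => ∀ u, u ∉ Λ → (NN N (A u) : ℝ) ≤ Z), wt s ch w e τ A -
        if ∀ u ∈ Λ, τ u = 0 then (#(FF N x) : ℝ) else 0| ≤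
        C * x * Real.log x ^ (-η) * Real.log Z ^ D

/-- JP-ABSa -/
def TABSa : Prop :=
  ∀ {P : Type} {X : Type} [AddCommGroup X] (N : P → ℕ) (s : P → P → ℝ) (ch : X → P → ℝ)
    (I : Type) [Fintype I] [DecidableEq I] (w : ℝ) (e : I → I → ℕ) (τ : I → X),
    Basic N s (fun _ => 1) → Lin ch → A2 N → A4 N s → 0 ≤ w → w ≤ 1 → (∀ u, e u u = 0) →
      SABSa N s ch I w e τ

/-- JP-ABSc -/
def TABSc : Prop :=
  ∀ {P : Type} {X : Type} [AddCommGroup X] (N : P → ℕ) (s : P → P → ℝ) (ch : X → P → ℝ)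
    (I : Type) [Fintype I] [DecidableEq I] (w : ℝ) (e : I → I → ℕ) (τ : I → X),
    Basic N s (fun _ => 1) → Lin ch → A2 N → A3' N s ch → HR N → 0 < w → w ≤ 1 →
      (∀ u, e u u = 0) → SABSc N s ch I w e τ

end gen

/-! ## The primes outside a finite set -/

/-- the primes outside `Q` -/
def PQ (Q : Finset Pr) : Type := {p : Pr // p ∉ Q}

/-- the norm -/
def nQ (Q : Finset Pr) (p : PQ Q) : ℕ := gN p.1

/-- the symbol -/
noncomputable def sQ (Q : Finset Pr) (p q : PQ Q) : ℝ := gs p.1 q.1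

/-- the index group of the linear characters -/
abbrev XQ (Q : Finset Pr) := ZMod 2 × (Q → ZMod 2)

/-- the linear characters -/
noncomputable def chQ (Q : Finset Pr) (x : XQ Q) (p : PQ Q) : ℝ :=
  gt p.1 ^ x.1.val * ∏ b : Q, gs b.1 p.1 ^ (x.2 b).val

/-- JP-RES -/
def SRES : Prop :=
  Basic gN gs gt → A2 gN → A4 gN gs → A5 gN → HR gN → ∀ Q : Finset Pr,
    Basic (nQ Q) (sQ Q) (fun _ => 1) ∧ Lin (chQ Q) ∧ A2 (nQ Q) ∧ A4 (nQ Q) (sQ Q) ∧ A5 (nQ Q) ∧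
      HR (nQ Q)

/-- JP-A3 -/
def SA3 : Prop :=
  Basic gN gs gt → A2 gN → A3 gN gs gt → ∀ Q : Finset Pr, A3' (nQ Q) (sQ Q) (chQ Q)

/-! ## The kernels -/

/-- the embedding -/
def emQ (Q : Finset Pr) : PQ Q ↪ Pr := ⟨fun p => p.1, fun _ _ h => Subtype.ext h⟩

/-- the linear part of the exponents -/
noncomputable def tt {Q0 : Type} {K : ℕ} (J : Q0 → Finset (Fin K))
    (β : Fin K → Q0 → ZMod 2 × ZMod 2) (u : Ix K) : ZMod 2 × (Q0 → ZMod 2) :=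
  (QQ u, fun b => ∑ i ∈ J b, ((u i).1 + (β i b).1) * ((u i).2 + (β i b).2))

open Classical in
/-- the constant -/
noncomputable def cst {Q0 : Type} [Fintype Q0] {K : ℕ} (J : Q0 → Finset (Fin K)) (t0 : Q0 → ℝ)
    (s0 : Q0 → Q0 → ℝ) (β : Fin K → Q0 → ZMod 2 × ZMod 2) : ℝ :=
  ∏ i, ∏ b, if i ∈ J b then
    (1 / 2 : ℝ) * t0 b ^ ((β i b).1.val * (β i b).2.val) *
      ∏ b' : Q0, (if i ∈ J b' then s0 b' b ^ (((β i b').1 + (β i b).1).val * (β i b).2.val) else 1)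
    else 1 / 4

open Classical in
/-- the sets `J b` for `K` sets of primes -/
noncomputable def JB {Q : Finset Pr} {K : ℕ} (B : Fin K → Finset Pr) (b : Q) : Finset (Fin K) :=
  univ.filter fun i => b.1 ∈ B i

open Classical in
/-- JP-KER: expansion of the product of the sizes of the kernels -/
def SKER : Prop :=
  Basic gN gs gt → ∀ (Q : Finset Pr) (K : ℕ) (B : Fin K → Finset Pr), (∀ i, B i ⊆ Q) →
    ∀ A : Finset (PQ Q),
      ∏ i, (XX gs gt (A.map (emQ Q) ∪ B i) : ℝ) =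
        ∑ β : Fin K → Q → ZMod 2 × ZMod 2,
          cst (JB B) (fun b : Q => gt b.1) (fun b b' : Q => gs b.1 b'.1) β *
            ∑ l : A → Ix K, ∏ p : A, ((1 / 2 : ℝ) ^ K * chQ Q (tt (JB B) β (l p)) p *
              ∏ q : A, sQ Q q p ^ ee (l q) (l p))

/-! ## Combinatorics -/

open Classical in
/-- JP-COMA: if the character is constant, it is trivial -/
def SCOMA : Prop :=
  ∀ (Q0 : Type) (K : ℕ) (J : Q0 → Finset (Fin K)) (β : Fin K → Q0 → ZMod 2 × ZMod 2)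
    (Λ : Finset (Ix K)), (∀ u ∈ Λ, ∀ v ∈ Λ, QQ (u + v) = 0) → #Λ = 2 ^ K →
    (∃ u ∈ Λ, tt J β u ≠ 0) → ∃ u0 ∈ Λ, ∃ u1 ∈ Λ, tt J β u0 ≠ tt J β u1

open Classical in
/-- the number of good sets -/
noncomputable def ng {Q0 : Type} {K : ℕ} (J : Q0 → Finset (Fin K))
    (β : Fin K → Q0 → ZMod 2 × ZMod 2) : ℕ :=
  #((univ : Finset (Finset (Ix K))).filter fun Λ =>
    (∀ u ∈ Λ, ∀ v ∈ Λ, QQ (u + v) = 0) ∧ #Λ = 2 ^ K ∧ ∀ u ∈ Λ, tt J β u = 0)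

open Classical in
/-- JP-COMB: the total main term -/
def SCOMB : Prop :=
  ∀ (Q0 : Type) [Fintype Q0] (K : ℕ) (T : Type) [Fintype T] (f : Fin K → T) (B : T → Finset Q0),
    Function.Injective B → ∀ (t0 : Q0 → ℝ) (s0 : Q0 → Q0 → ℝ), (∀ b, t0 b = 1 ∨ t0 b = -1) →
    (∀ b b', b ≠ b' → s0 b b' = 1 ∨ s0 b b' = -1) → (∀ b b', s0 b b' = s0 b' b) →
      ∑ β : Fin K → Q0 → ZMod 2 × ZMod 2,
        cst (fun b => univ.filter fun i => b ∈ B (f i)) t0 s0 β *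
          (ng (fun b => univ.filter fun i => b ∈ B (f i)) β : ℝ) =
        ∏ j : T, ∏ i ∈ range #(univ.filter fun i => f i = j), ((2 : ℝ) ^ i + 1)

/-! ## Moments -/

/-- JP-MOM: the method of moments with weights -/
def SMOMW : Prop :=
  ∀ (Ω : ℕ → Type) (F : ∀ n, Finset (Ω n)) (X : ∀ n, Ω n → ℕ) (v : ∀ n, Ω n → ℝ) (c : ℝ),
    (∀ n, (F n).Nonempty) → (∀ n ω, 0 ≤ v n ω) → (∀ n, ∀ ω ∈ F n, ∃ j, X n ω = 2 ^ j) →
    (∀ k : ℕ, Filter.Tendsto (fun n => (∑ ω ∈ F n, v n ω * (X n ω : ℝ) ^ k) / #(F n)) Filter.atTop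
      (nhds (c * ∏ i ∈ range k, ((2 : ℝ) ^ i + 1)))) →
    Filter.Tendsto (fun n => (∑ ω ∈ F n, if X n ω = 1 then v n ω else 0) / #(F n)) Filter.atTop
      (nhds (c * al))

/-- JP-MOM: the joint law -/
def SMOMJ : Prop :=
  ∀ (T : Type) [Fintype T] (Ω : ℕ → Type) (F : ∀ n, Finset (Ω n)) (X : T → ∀ n, Ω n → ℕ),
    (∀ n, (F n).Nonempty) → (∀ j n, ∀ ω ∈ F n, ∃ i, X j n ω = 2 ^ i) →
    (∀ k : T → ℕ, Filter.Tendsto (fun n => (∑ ω ∈ F n, ∏ j, (X j n ω : ℝ) ^ k j) / #(F n))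
      Filter.atTop (nhds (∏ j, ∏ i ∈ range (k j), ((2 : ℝ) ^ i + 1)))) →
    Filter.Tendsto (fun n => (#((F n).filter fun ω => ∀ j, X j n ω = 1) : ℝ) / #(F n)) Filter.atTop
      (nhds (al ^ Fintype.card T))

end Pool.Agent.Y690.JP
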