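import Pool.Agent.Y690.JP.Mo
import Pool.Agent.Y690.PP.Dens
import Pool.Agent.Y258.JP.ABSa
import Pool.Agent.Y25.JP.ABSc
import Pool.Agent.Y287.JP.A3
import Pool.Agent.Y287.JP.Res
import Pool.Agent.Y529.JP.Ker
import Pool.Agent.Y961.JP.Comb
import Pool.Agent.Y455.JP.Coma
import Pool.Agent.Y232.JP.Mom

/-!
# The joint density
-/

set_option autoImplicit false

open Finset Filter

namespace Pool.Agent.Y690.JP

open Pool.Agent.Y690.PP

/-- reindexing of the product -/
lemma prod_sigma {T : Type} [Fintype T] (k : T → ℕ) (g : T → ℝ) :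
    ∏ i : Fin (Fintype.card (Σ j : T, Fin (k j))),
      g ((Fintype.equivFin (Σ j : T, Fin (k j))).symm i).1 = ∏ j, g j ^ k j := by
  rw [(Fintype.equivFin (Σ j : T, Fin (k j))).symm.prod_comp (fun x => g x.1),
    Fintype.prod_sigma]
  refine Finset.prod_congr rfl fun j _ => ?_
  show ∏ _y : Fin (k j), g j = g j ^ k j
  rw [Finset.prod_const, Finset.card_univ, Fintype.card_fin]

open Classical in
lemma card_fib {T : Type} [Fintype T] (k : T → ℕ) (j : T) :
    #(univ.filter fun i : Fin (Fintype.card (Σ j : T, Fin (k j))) =>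
      ((Fintype.equivFin (Σ j : T, Fin (k j))).symm i).1 = j) = k j := by
  have h1 : #(univ.filter fun i : Fin (Fintype.card (Σ j : T, Fin (k j))) =>
      ((Fintype.equivFin (Σ j : T, Fin (k j))).symm i).1 = j) =
      #(univ.filter fun x : Σ j : T, Fin (k j) => x.1 = j) := by
    refine Finset.card_bij (fun i _ => (Fintype.equivFin (Σ j : T, Fin (k j))).symm i) ?_ ?_ ?_
    · intro i hi
      rw [mem_filter] at hi ⊢
      exact ⟨mem_univ _, hi.2⟩
    · intro i _ i' _ h
      exact (Fintype.equivFin (Σ j : T, Fin (k j))).symm.injective h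
    · intro x hx
      rw [mem_filter] at hx
      refine ⟨Fintype.equivFin _ x, ?_, ?_⟩
      · rw [mem_filter, Equiv.symm_apply_apply]
        exact ⟨mem_univ _, hx.2⟩
      · exact Equiv.symm_apply_apply _ _
  rw [h1]
  have h2 : #(univ.filter fun x : Σ j : T, Fin (k j) => x.1 = j) = #(univ : Finset (Fin (k j))) := by
    symm
    refine Finset.card_bij (fun a _ => (⟨j, a⟩ : Σ j : T, Fin (k j))) ?_ ?_ ?_
    · intro a _
      rw [mem_filter]
      exact ⟨mem_univ _, rfl⟩
    · intro a _ a' _ h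
      simpa using h
    · rintro ⟨j', a⟩ hx
      rw [mem_filter] at hx
      obtain rfl : j' = j := hx.2
      exact ⟨a, mem_univ _, rfl⟩
  rw [h2, Finset.card_univ, Fintype.card_fin]

open Classical in
/-- The joint density of the trivial kernels. -/
theorem density_joint (T : Type) [Fintype T] (B : T → Finset Pr) (hB : Function.Injective B)
    (Q : Finset Pr) (hQ : ∀ j, B j ⊆ Q) :
    Tendsto (fun n : ℕ => (#((FF (nQ Q) (n + 1 : ℝ)).filter fun A =>
      ∀ j, XX gs gt (A.map (emQ Q) ∪ B j) = 1) : ℝ) / #(FF (nQ Q) (n + 1 : ℝ))) atTop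
      (nhds (al ^ Fintype.card T)) := by
  have hrec := Pool.Agent.Y901.PP.Rec.t_REC
  have hmult := Pool.Agent.Y944.PP.t_MULT
  have hmean := Pool.Agent.Y497.PP.t_MEAN hmult
  have hann := Pool.Agent.Y808.PP.t_ANN
  have hdisc := Pool.Agent.Y808.PP.t_DISC
  have hfac := Pool.Agent.Y427.PP.t_FAC
  have h1 := Pool.Agent.Y658.PP.t_A1
  have h2 := Pool.Agent.Y363.PP.t_A2 hfac
  have h5 := Pool.Agent.Y954.PP.t_A5 hfac
  have h3 := Pool.Agent.Y692.PP.t_A3 hmult hmean hdisc hfac
  have hbox1 := Pool.Agent.Y678.PP.t_BOX1 hmult hmean hdisc hfac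
  have hbox := Pool.Agent.Y692.PP.t_BOX hmult hfac hbox1
  have h4 := Pool.Agent.Y678.PP.t_A4 hrec hann hfac hbox
  have hb := basic_gs hrec
  have hHR := Pool.Agent.Y665.PP.t_HR gN gs gt hb h1
  obtain ⟨r1, -⟩ := Pool.Agent.Y287.JP.t_RES hb h2 h4 h5 hHR Q
  refine Pool.Agent.Y232.JP.t_MOMJ T (fun _ => Finset (PQ Q)) (fun n => FF (nQ Q) (n + 1 : ℝ))
    (fun j _ A => XX gs gt (A.map (emQ Q) ∪ B j)) (fun n => ?_) (fun j n A _ => XX_pow hb _)
    (fun k => ?_)
  · refine ⟨∅, ?_⟩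
    rw [mem_FF r1]
    unfold NN
    rw [Finset.prod_empty]
    push_cast
    have : (0 : ℝ) ≤ n := Nat.cast_nonneg n
    linarith
  · have h := moments Pool.Agent.Y258.JP.t_ABSa Pool.Agent.Y25.JP.t_ABSc Pool.Agent.Y287.JP.t_RES
      Pool.Agent.Y287.JP.t_A3' Pool.Agent.Y529.JP.t_KER Pool.Agent.Y455.JP.t_COMA
      Pool.Agent.Y961.JP.t_COMB Pool.Agent.Y405.PP.t_COMB Pool.Agent.Y804.PP.t_ABSb
      hb h2 h3 h4 h5 hHR T B hB Q hQ (Fintype.card (Σ j : T, Fin (k j)))
      (fun i => ((Fintype.equivFin (Σ j : T, Fin (k j))).symm i).1)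
    have h' := h.comp (tendsto_atTop_add_const_right _ 1 tendsto_natCast_atTop_atTop)
    have e1 : (∏ j : T, ∏ i ∈ range #(univ.filter fun i =>
        ((Fintype.equivFin (Σ j : T, Fin (k j))).symm i).1 = j), ((2 : ℝ) ^ i + 1)) =
        ∏ j, ∏ i ∈ range (k j), ((2 : ℝ) ^ i + 1) := by
      refine Finset.prod_congr rfl fun j _ => ?_
      rw [card_fib]
    rw [e1] at h'
    refine h'.congr fun n => ?_
    simp only [Function.comp]
    congr 1
    refine Finset.sum_congr rfl fun A _ => ?_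
    exact prod_sigma k fun j => (XX gs gt (A.map (emQ Q) ∪ B j) : ℝ)

end Pool.Agent.Y690.JP
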