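import Pool.Agent.Y690.JP.Dens
import Pool.Agent.Y690.PP.Last

/-!
# The joint distribution: the last step
-/

set_option autoImplicit false

open Finset Filter

namespace Pool.Agent.Y690.JP

open Pool.Agent.Y690.PP Pool.Agent.Y690.PP.Fn

/-- a trivial kernel gives no points and no zeros -/
theorem good (A : Finset Pr) (hA : TK A) : GoodP (la * PA A) ∧ GoodL (la * PA A) := by
  refine ⟨t_DSC (Pool.Agent.Y547.PP.t_DSC1 Pool.Agent.Y983.PP.t_SUPP) Pool.Agent.Y259.PP.t_KER A hA,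
    ?_⟩
  -- the subring
  let R : Subring ℂ := GaussianInt.toComplex.range
  have hR : ∀ z : ℂ, z ∈ R ↔ ∃ x y : ℤ, z = x + y * Complex.I := by
    intro z
    constructor
    · rintro ⟨w, rfl⟩
      exact ⟨w.re, w.im, GaussianInt.toComplex_def w⟩
    · rintro ⟨x, y, rfl⟩
      exact ⟨⟨x, y⟩, GaussianInt.toComplex_def _⟩
  have hadm := adm_of_XX hR Pool.Agent.Y901.PP.Rec.t_REC Pool.Agent.W287.HK.h_basic hA
  refine Pool.Agent.Y674.PP.t_EUL Pool.Agent.Y983.PP.t_SUPP R hR (Pool.Agent.Y690.NV.ff hR)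
    (Pool.Agent.Y690.NV.ff_coe hR) A (A.map (em hR)) ?_ (nonv0 hR hadm)
  intro p
  rw [Finset.mem_map]
  constructor
  · rintro ⟨q, hq, rfl⟩
    refine ⟨q, hq, ?_⟩
    rw [em_coe, phi_coe]
    exact (GaussianInt.toComplex_def q.1).symm
  · rintro ⟨q, hq, h⟩
    refine ⟨q, hq, Subtype.ext ?_⟩
    rw [em_coe, phi_coe, h]
    exact (GaussianInt.toComplex_def q.1).symm

/-- squarefree and congruent to one modulo `2 + 2 i` -/
def Primary (D : G) : Prop := Squarefree D ∧ (⟨2, 2⟩ : G) ∣ D - 1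

/-- the set of twists -/
def Tws (S : Finset G) (X : ℝ) : Set G :=
  {d | Primary d ∧ (∀ D ∈ S, IsCoprime d D) ∧ ((d.norm : ℤ) : ℝ) ≤ X}

lemma primary_PA (A : Finset Pr) : Primary (PA A) :=
  ⟨Pool.Agent.Y37.PP.sqf_PA A, Pool.Agent.Y37.PP.prm_PA A⟩

lemma exists_PA {D : G} (h : Primary D) : ∃ A : Finset Pr, D = PA A := by
  obtain ⟨t, A, ht, hD⟩ := Pool.Agent.Y427.PP.t_FAC.1 D h.2
  have h1 : t * t ∣ D := ⟨∏ p ∈ A, p.1, by rw [hD]; ring⟩
  have h2 : t = 1 := Pool.Agent.Y427.PP.prm_unit (h.1 t h1) ht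
  refine ⟨A, ?_⟩
  rw [hD, h2, one_pow, one_mul]
  rfl

lemma PA_inj : Function.Injective PA := by
  intro A B h
  have h1 := Pool.Agent.Y37.PP.t_CNT2 1 1 A B isUnit_one isUnit_one (by rw [h])
  exact h1.2

lemma cop_iff (A B : Finset Pr) : IsCoprime (PA A) (PA B) ↔ Disjoint A B := by
  constructor
  · intro h
    rw [Finset.disjoint_left]
    intro p hp hp'
    have h1 : p.1 ∣ PA A := Finset.dvd_prod_of_mem _ hp
    have h2 : p.1 ∣ PA B := Finset.dvd_prod_of_mem _ hp'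
    exact p.2.1.not_unit (h.isUnit_of_dvd' h1 h2)
  · intro h
    unfold PA
    refine IsCoprime.prod_left fun p hp => IsCoprime.prod_right fun q hq => ?_
    have h1 : Irreducible p.1 := p.2.1.irreducible
    rw [h1.coprime_iff_not_dvd]
    intro h2
    have h3 : Associated p.1 q.1 := p.2.1.associated_of_dvd q.2.1 h2
    have h4 : p.1 = q.1 := Pool.Agent.Y427.PP.prm_assoc h3 p.2.2 q.2.2
    have h5 : p = q := Subtype.ext h4
    rw [h5] at hp
    exact (Finset.disjoint_left.mp h hp) hq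

lemma PA_union {A B : Finset Pr} [DecidableEq Pr] (h : Disjoint A B) :
    PA (A ∪ B) = PA A * PA B := by
  unfold PA
  rw [Finset.prod_union h]

open Classical in
/-- the sets of primes outside `Q` -/
lemma exists_map (Q A : Finset Pr) (h : Disjoint A Q) :
    ∃ A' : Finset (PQ Q), A = A'.map (emQ Q) := by
  refine ⟨A.subtype (fun p => p ∉ Q), ?_⟩
  ext p
  rw [Finset.mem_map]
  constructor
  · intro hp
    have hpQ : p ∉ Q := Finset.disjoint_left.mp h hp
    exact ⟨⟨p, hpQ⟩, Finset.mem_subtype.mpr hp, rfl⟩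
  · rintro ⟨q, hq, rfl⟩
    exact Finset.mem_subtype.mp hq

lemma map_disj (Q : Finset Pr) (A : Finset (PQ Q)) : Disjoint (A.map (emQ Q)) Q := by
  rw [Finset.disjoint_left]
  intro p hp
  obtain ⟨q, _, rfl⟩ := Finset.mem_map.mp hp
  exact q.2

lemma NN_map (Q : Finset Pr) (A : Finset (PQ Q)) : NN gN (A.map (emQ Q)) = NN (nQ Q) A := by
  unfold NN
  rw [Finset.prod_map]
  rfl

lemma norm_PA (A : Finset Pr) (X : ℝ) : (((PA A).norm : ℤ) : ℝ) ≤ X ↔ (NN gN A : ℝ) ≤ X := by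
  rw [Pool.Agent.Y100.PP.norm_le]
  have h : nm (PA A) = NN gN A := Pool.Agent.Y678.PP.nm_prod A
  rw [h]

section

variable (S : Finset G) (hS : ∀ D ∈ S, Primary D)

/-- the set of primes of an element of `S` -/
noncomputable def BB (j : S) : Finset Pr := (exists_PA (hS j.1 j.2)).choose

lemma BB_spec (j : S) : j.1 = PA (BB S hS j) := (exists_PA (hS j.1 j.2)).choose_spec

lemma BB_inj : Function.Injective (BB S hS) := by
  intro j j' h
  apply Subtype.ext
  rw [BB_spec S hS j, BB_spec S hS j', h]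

open Classical in
/-- all the primes -/
noncomputable def QS : Finset Pr := univ.biUnion (BB S hS)

lemma BB_sub (j : S) : BB S hS j ⊆ QS S hS := by
  classical
  intro p hp
  unfold QS
  rw [mem_biUnion]
  exact ⟨j, mem_univ _, hp⟩

lemma cop_QS (A : Finset Pr) : (∀ D ∈ S, IsCoprime (PA A) D) ↔ Disjoint A (QS S hS) := by
  classical
  constructor
  · intro h
    unfold QS
    rw [Finset.disjoint_biUnion_right]
    intro j _
    have h1 := h j.1 j.2
    rw [BB_spec S hS j] at h1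
    exact (cop_iff _ _).mp h1
  · intro h D hD
    have h1 := BB_spec S hS ⟨D, hD⟩
    simp only at h1
    rw [h1]
    exact (cop_iff _ _).mpr (h.mono_right (BB_sub S hS ⟨D, hD⟩))

open Classical in
lemma Tws_eq (hb : Basic (nQ (QS S hS)) (sQ (QS S hS)) (fun _ => 1)) (X : ℝ) :
    Tws S X = ((FF (nQ (QS S hS)) X).image fun A => PA (A.map (emQ (QS S hS))) : Finset G) := by
  ext d
  rw [Finset.coe_image, Set.mem_image]
  constructor
  · rintro ⟨h1, h2, h3⟩
    obtain ⟨A, rfl⟩ := exists_PA h1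
    obtain ⟨A', rfl⟩ := exists_map _ A ((cop_QS S hS A).mp h2)
    refine ⟨A', Finset.mem_coe.mpr ((mem_FF hb).mpr ?_), rfl⟩
    rw [norm_PA, NN_map] at h3
    exact h3
  · rintro ⟨A, hA, rfl⟩
    refine ⟨primary_PA _, (cop_QS S hS _).mpr (map_disj _ A), ?_⟩
    rw [norm_PA, NN_map]
    exact (mem_FF hb).mp (Finset.mem_coe.mp hA)

lemma phi_inj : Function.Injective (fun A : Finset (PQ (QS S hS)) => PA (A.map (emQ (QS S hS)))) :=
  fun _ _ h => Finset.map_injective _ (PA_inj h)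

end

lemma FF_floor' {P : Type} {N : P → ℕ} {s : P → P → ℝ} {t : P → ℝ} (hb : Basic N s t) {X : ℝ}
    (hX : 1 ≤ X) : FF N X = FF N (((⌊X⌋₊ - 1 : ℕ) : ℝ) + 1) := by
  classical
  have h1 : 1 ≤ ⌊X⌋₊ := Nat.le_floor (by exact_mod_cast hX)
  ext A
  rw [mem_FF hb, mem_FF hb]
  have h2 : (((⌊X⌋₊ - 1 : ℕ) : ℝ) + 1) = (⌊X⌋₊ : ℝ) := by
    rw [Nat.cast_sub h1]
    push_cast
    ring
  rw [h2, Nat.cast_le, Nat.le_floor_iff (by linarith)]

/-- the final theorem -/
theorem last (S : Finset G) (hS : ∀ D ∈ S, Primary D) :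
    (∀ X : ℝ, (Tws S X).Finite) ∧
    (∃ c : ℝ, 0 < c ∧ ∀ X : ℝ, 1 ≤ X → c * X ≤ ((Tws S X).ncard : ℝ)) ∧
    ∀ ε : ℝ, 0 < ε → ∃ X₀ : ℝ, ∀ X : ℝ, X₀ ≤ X →
      (al ^ #S - ε) * ((Tws S X).ncard : ℝ) ≤
        ({d ∈ Tws S X | ∀ D ∈ S, GoodP (la * D * d) ∧ GoodL (la * D * d)}.ncard : ℝ) := by
  classical
  have hrec := Pool.Agent.Y901.PP.Rec.t_REC
  have hmult := Pool.Agent.Y944.PP.t_MULT
  have hmean := Pool.Agent.Y497.PP.t_MEAN hmult
  have hann := Pool.Agent.Y808.PP.t_ANN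
  have hdisc := Pool.Agent.Y808.PP.t_DISC
  have hfac := Pool.Agent.Y427.PP.t_FAC
  have h1 := Pool.Agent.Y658.PP.t_A1
  have h2 := Pool.Agent.Y363.PP.t_A2 hfac
  have h5 := Pool.Agent.Y954.PP.t_A5 hfac
  have hbox1 := Pool.Agent.Y678.PP.t_BOX1 hmult hmean hdisc hfac
  have hbox := Pool.Agent.Y692.PP.t_BOX hmult hfac hbox1
  have h4 := Pool.Agent.Y678.PP.t_A4 hrec hann hfac hbox
  have hb := basic_gs hrec
  have hHR := Pool.Agent.Y665.PP.t_HR gN gs gt hb h1
  obtain ⟨r1, -, -, -, r5, -⟩ := Pool.Agent.Y287.JP.t_RES hb h2 h4 h5 hHR (QS S hS)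
  have hcard : ∀ X : ℝ, (Tws S X).ncard = #(FF (nQ (QS S hS)) X) := by
    intro X
    rw [Tws_eq S hS r1, Set.ncard_coe_finset, Finset.card_image_of_injective _ (phi_inj S hS)]
  have hfin : ∀ X : ℝ, (Tws S X).Finite := by
    intro X
    rw [Tws_eq S hS r1]
    exact Finset.finite_toSet _
  refine ⟨hfin, ?_, ?_⟩
  · obtain ⟨c, hc, h⟩ := r5
    refine ⟨c, hc, fun X hX => ?_⟩
    rw [hcard]
    exact h X hX
  · intro ε hε
    have hd := density_joint S (BB S hS) (BB_inj S hS) (QS S hS) (BB_sub S hS)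
    rw [Fintype.card_coe] at hd
    have hev := hd.eventually (lt_mem_nhds (show al ^ #S - ε < al ^ #S by linarith))
    obtain ⟨n₀, hn₀⟩ := eventually_atTop.mp hev
    refine ⟨n₀ + 2, fun X hX => ?_⟩
    have hX1 : (1 : ℝ) ≤ X := by
      have : (0 : ℝ) ≤ n₀ := Nat.cast_nonneg _
      linarith
    have hfl : n₀ + 1 ≤ ⌊X⌋₊ := Nat.le_floor (by push_cast; linarith)
    have h6 := hn₀ (⌊X⌋₊ - 1) (by omega)
    rw [← FF_floor' r1 hX1] at h6
    have hpos : (0 : ℝ) < #(FF (nQ (QS S hS)) X) := by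
      have : (∅ : Finset (PQ (QS S hS))) ∈ FF (nQ (QS S hS)) X := by
        rw [mem_FF r1]
        unfold NN
        rw [Finset.prod_empty]
        push_cast
        exact hX1
      exact_mod_cast Finset.card_pos.mpr ⟨_, this⟩
    rw [lt_div_iff₀ hpos] at h6
    rw [hcard]
    refine h6.le.trans ?_
    have h7 : #((FF (nQ (QS S hS)) X).filter fun A =>
        ∀ j, XX gs gt (A.map (emQ (QS S hS)) ∪ BB S hS j) = 1) ≤
        {d ∈ Tws S X | ∀ D ∈ S, GoodP (la * D * d) ∧ GoodL (la * D * d)}.ncard := by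
      set U : Finset G := ((FF (nQ (QS S hS)) X).filter fun A =>
        ∀ j, XX gs gt (A.map (emQ (QS S hS)) ∪ BB S hS j) = 1).image
          fun A => PA (A.map (emQ (QS S hS))) with hU
      have h8 : (U : Set G) ⊆
          {d ∈ Tws S X | ∀ D ∈ S, GoodP (la * D * d) ∧ GoodL (la * D * d)} := by
        intro d hd
        rw [Finset.mem_coe, hU, Finset.mem_image] at hd
        obtain ⟨A, hA, rfl⟩ := hd
        rw [Finset.mem_filter] at hA
        refine ⟨?_, fun D hD => ?_⟩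
        · rw [Tws_eq S hS r1]
          exact Finset.mem_coe.mpr (Finset.mem_image_of_mem _ hA.1)
        · have h9 := hA.2 ⟨D, hD⟩
          have h10 : D = PA (BB S hS ⟨D, hD⟩) := BB_spec S hS ⟨D, hD⟩
          have h11 : la * D * PA (A.map (emQ (QS S hS))) =
              la * PA (A.map (emQ (QS S hS)) ∪ BB S hS ⟨D, hD⟩) := by
            rw [PA_union ((map_disj _ A).mono_right (BB_sub S hS ⟨D, hD⟩)), ← h10]
            ring
          rw [h11]
          exact good _ h9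
      have h12 : #U = #((FF (nQ (QS S hS)) X).filter fun A =>
          ∀ j, XX gs gt (A.map (emQ (QS S hS)) ∪ BB S hS j) = 1) := by
        rw [hU, Finset.card_image_of_injective _ (phi_inj S hS)]
      rw [← h12, ← Set.ncard_coe_finset]
      exact Set.ncard_le_ncard h8 ((hfin X).subset fun d hd => hd.1)
    refine le_trans (le_of_eq ?_) (show ((#((FF (nQ (QS S hS)) X).filter fun A =>
        ∀ j, XX gs gt (A.map (emQ (QS S hS)) ∪ BB S hS j) = 1) : ℕ) : ℝ) ≤ _ by exact_mod_cast h7)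
    congr!

end Pool.Agent.Y690.JP
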