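import Pool.Agent.Y690.JP.Leaf
import Pool.Agent.Y690.JP.Stm2

/-!
# The last step over number fields
-/

set_option autoImplicit false

open Finset Filter NumberField IsDedekindDomain

namespace Pool.Agent.Y690.JP.MF

open Pool.Agent.Y690.PP Pool.Agent.Y690.PP.Fn Pool.Agent.Y690.JP

lemma prm_prod (J : Finset G) (h : ∀ D ∈ J, Prm D) : Prm (∏ D ∈ J, D) := by
  classical
  induction J using Finset.induction_on with
  | empty =>
    rw [Finset.prod_empty]
    exact Pool.Agent.Y427.PP.prm_one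
  | insert a J ha ih =>
    rw [Finset.prod_insert ha]
    exact Pool.Agent.Y427.PP.prm_mul (h a (mem_insert_self _ _))
      (ih fun D hD => h D (mem_insert_of_mem hD))

open Classical in
/-- the set of primes which divide the product over `J` to an odd power -/
noncomputable def BJ (J : Finset G) : Finset Pr :=
  if h : ∃ A : Finset Pr, ∃ t : G, Prm t ∧ ∏ D ∈ J, D = t ^ 2 * PA A then h.choose else ∅

lemma BJ_spec (J : Finset G) (h : ∀ D ∈ J, Prm D) :
    ∃ t : G, Prm t ∧ ∏ D ∈ J, D = t ^ 2 * PA (BJ J) := by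
  have h1 : ∃ A : Finset Pr, ∃ t : G, Prm t ∧ ∏ D ∈ J, D = t ^ 2 * PA A := by
    obtain ⟨t, A, ht, hD⟩ := Pool.Agent.Y427.PP.t_FAC.1 _ (prm_prod J h)
    exact ⟨A, t, ht, hD⟩
  unfold BJ
  rw [dif_pos h1]
  exact h1.choose_spec

lemma al_le_one : al ≤ 1 := by
  refine le_of_tendsto' density_all fun n => ?_
  apply div_le_one_of_le₀ _ (Nat.cast_nonneg _)
  exact_mod_cast Finset.card_filter_le _ _

lemma goodP_sq {E e : G} (he : e ≠ 0) (h : GoodP E) : GoodP (E * e ^ 2) := by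
  intro x y hxy
  have he' : algebraMap G (FractionRing G) e ≠ 0 := by
    intro h0
    apply he
    apply IsFractionRing.injective G (FractionRing G)
    rw [h0, map_zero]
  have h1 := h x (algebraMap G (FractionRing G) e * y) (by
    rw [← hxy, map_mul, map_pow]
    ring)
  exact (mul_eq_zero.mp h1).resolve_left he'

lemma dvd_of_cong {M q : G} {l : ℕ} (hq : q ∣ M) (hl1 : 1 ≤ l) (hl : l ≡ 1 [MOD M.norm.natAbs]) :
    q ∣ (l : G) - 1 := by
  have h1 : (M.norm.natAbs : ℤ) ∣ (l : ℤ) - 1 := by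
    have h2 := (Nat.modEq_iff_dvd' hl1).mp hl.symm
    obtain ⟨c, hc⟩ := h2
    refine ⟨c, ?_⟩
    have h3 : ((l - 1 : ℕ) : ℤ) = (l : ℤ) - 1 := by push_cast [Nat.cast_sub hl1]; ring
    rw [← h3, hc]
    push_cast
    ring
  have h2 : M.norm ∣ (l : ℤ) - 1 := Int.natAbs_dvd.mp h1
  obtain ⟨c, hc⟩ := h2
  have h3 : ((M.norm : ℤ) : G) = M * star M := Zsqrtd.norm_eq_mul_conj M
  have h4 : (l : G) - 1 = M * star M * (c : G) := by
    rw [← h3, ← Int.cast_mul, ← hc]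
    push_cast
    ring
  rw [h4, mul_assoc]
  exact hq.mul_right _

section

variable (S : Finset G) (hS : ∀ D ∈ S, Primary D)

lemma BJ_sub (J : Finset G) (hJ : J ⊆ S) : BJ J ⊆ QS S hS := by
  intro p hp
  obtain ⟨t, _, ht⟩ := BJ_spec J fun D hD => (hS D (hJ hD)).2
  have h1 : p.1 ∣ ∏ D ∈ J, D := by
    rw [ht]
    exact (Finset.dvd_prod_of_mem (fun q : Pr => q.1) hp).mul_left _
  obtain ⟨D, hD, hpD⟩ := (Prime.dvd_finsetProd_iff p.2.1 _).mp h1
  have h2 : D = PA (BB S hS ⟨D, hJ hD⟩) := BB_spec S hS ⟨D, hJ hD⟩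
  have h3 : p ∈ BB S hS ⟨D, hJ hD⟩ := by
    by_contra h3
    rw [h2] at hpD
    exact Pool.Agent.Y427.PP.not_dvd_prod p _ h3 hpD
  exact BB_sub S hS ⟨D, hJ hD⟩ h3

/-- the property of `d` -/
def Holds (S : Finset G) (d : G) : Prop :=
  ∀ U : Finset ℕ, (∀ l ∈ U, l.Prime ∧ l % 8 = 3 ∧ l ≡ 1 [MOD (d * ∏ D ∈ S, D).norm.natAbs]) →
    ∀ s : Finset G, (∀ δ ∈ s, ∃ J ⊆ S ∪ U.image fun l : ℕ => (l : G), δ = ∏ x ∈ J, x) →
      ∀ (F : Type) [Field F] [NumberField F] (ι : G →+* 𝓞 F), Generated ι s →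
        Finite (curve ι (la * d)).Point ∧ ∀ m : ℕ, 1 ≤ m → ∃ L : ℂ → ℂ,
          IsSymLFunction ι (la * d) (la * d * ∏ δ ∈ s, δ) (2 * m - 1) L ∧ L m ≠ 0

lemma prod_two (A B : Finset G) [DecidableEq G] :
    (∏ x ∈ A, x) * ∏ x ∈ B, x = (∏ x ∈ (A \ B) ∪ (B \ A), x) * (∏ x ∈ A ∩ B, x) ^ 2 := by
  have h1 : Disjoint (A \ B) (B \ A) := by
    rw [Finset.disjoint_left]
    intro x hx hx'
    exact (Finset.mem_sdiff.mp hx').2 (Finset.mem_sdiff.mp hx).1
  rw [Finset.prod_union h1, ← Finset.prod_inter_mul_prod_sdiff A B,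
    ← Finset.prod_inter_mul_prod_sdiff B A, Finset.inter_comm B A]
  ring

lemma prod_sub (T s : Finset G) (hT : ∀ x ∈ T, x ≠ 0) (h : ∀ δ ∈ s, ∃ J ⊆ T, δ = ∏ x ∈ J, x) :
    ∃ J ⊆ T, ∃ e : G, e ≠ 0 ∧ ∏ δ ∈ s, δ = (∏ x ∈ J, x) * e ^ 2 := by
  classical
  induction s using Finset.induction_on with
  | empty => exact ⟨∅, empty_subset _, 1, one_ne_zero, by simp⟩
  | insert a s ha ih =>
    obtain ⟨J, hJ, e, he, h1⟩ := ih fun δ hδ => h δ (mem_insert_of_mem hδ)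
    obtain ⟨A, hA, h2⟩ := h a (mem_insert_self _ _)
    refine ⟨(A \ J) ∪ (J \ A), ?_, (∏ x ∈ A ∩ J, x) * e, ?_, ?_⟩
    · intro x hx
      rcases Finset.mem_union.mp hx with h3 | h3
      · exact hA (Finset.mem_sdiff.mp h3).1
      · exact hJ (Finset.mem_sdiff.mp h3).1
    · exact mul_ne_zero (Finset.prod_ne_zero_iff.mpr fun x hx =>
        hT x (hA (Finset.mem_inter.mp hx).1)) he
    · rw [Finset.prod_insert ha, h1, h2, ← mul_assoc, prod_two A J]
      ring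

open Classical in
/-- the property follows from the triviality of the kernels -/
theorem holds_of (hfin : SFIN) (hloc : SLOC) (heul : SEULF) (A : Finset (PQ (QS S hS)))
    (hA : ∀ J ⊆ S, TK (A.map (emQ (QS S hS)) ∪ BJ J)) : Holds S (PA (A.map (emQ (QS S hS)))) := by
  intro U hU s' hs' F _ _ ι hgen
  set A' : Finset Pr := A.map (emQ (QS S hS)) with hA'
  set s : Finset G := S ∪ U.image fun l : ℕ => (l : G) with hs
  set D : G := la * PA A' with hD
  have hla : la ≠ 0 := Pool.Agent.Y37.PP.la_prime.ne_zero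
  have hD0 : D ≠ 0 := mul_ne_zero hla (Pool.Agent.Y37.PP.PA_ne_zero _)
  have hs0 : ∀ d ∈ s, d ≠ 0 := by
    intro d hd
    rcases mem_union.mp hd with h | h
    · exact Pool.Agent.Y427.PP.prm_ne_zero (hS d h).2
    · obtain ⟨l, hl, rfl⟩ := mem_image.mp h
      exact_mod_cast (hU l hl).1.ne_zero
  have hs0' : ∀ d ∈ s', d ≠ 0 := by
    intro d hd
    obtain ⟨J, hJ, rfl⟩ := hs' d hd
    exact Finset.prod_ne_zero_iff.mpr fun x hx => hs0 x (hJ hx)
  have key : ∀ J ⊆ s, ∃ E e : G, D * ∏ d ∈ J, d = E * e ^ 2 ∧ e ≠ 0 ∧ GoodP E ∧ GoodL E := by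
    intro J hJ
    set J₀ : Finset G := J ∩ S with hJ₀
    set U₁ : Finset ℕ := U.filter fun l => (l : G) ∈ J \ S with hU₁
    have hJ₀S : J₀ ⊆ S := inter_subset_right
    obtain ⟨t, ht, hprod⟩ := BJ_spec J₀ fun D hD => (hS D (hJ₀S hD)).2
    have e1 : ∏ d ∈ J \ S, d = ∏ l ∈ U₁, (l : G) := by
      have h1 : J \ S = U₁.image fun l : ℕ => (l : G) := by
        ext x
        rw [mem_image]
        constructor
        · intro hx'
          have hx := Finset.mem_sdiff.mp hx'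
          have h2 := mem_union.mp (hJ hx.1)
          obtain ⟨l, hl, rfl⟩ := mem_image.mp (h2.resolve_left hx.2)
          exact ⟨l, mem_filter.mpr ⟨hl, hx'⟩, rfl⟩
        · rintro ⟨l, hl, rfl⟩
          exact (mem_filter.mp hl).2
      rw [h1, Finset.prod_image]
      intro a _ b _ hab
      have hab' : ((a : ℕ) : G) = ((b : ℕ) : G) := hab
      exact_mod_cast hab'
    have e2 : ∏ d ∈ J, d = (∏ d ∈ J₀, d) * ∏ l ∈ U₁, (l : G) := by
      rw [← e1, hJ₀, Finset.prod_inter_mul_prod_sdiff]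
    have hdis : Disjoint A' (BJ J₀) :=
      (map_disj (QS S hS) A).mono_right (BJ_sub S hS J₀ hJ₀S)
    have hT := tower (A' ∪ BJ J₀) (hA J₀ hJ₀S) U₁ (fun l hl => by
      have hlU := (mem_filter.mp hl).1
      refine ⟨(hU l hlU).1, (hU l hlU).2.1, fun q hq => ?_⟩
      refine dvd_of_cong ?_ (hU l hlU).1.one_lt.le (hU l hlU).2.2
      rcases mem_union.mp hq with h | h
      · exact (Finset.dvd_prod_of_mem (fun q : Pr => q.1) h).mul_right _
      · have h1 : q.1 ∣ ∏ d ∈ J₀, d := by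
          rw [hprod]
          exact (Finset.dvd_prod_of_mem (fun q : Pr => q.1) h).mul_left _
        exact (h1.trans (Finset.prod_dvd_prod_of_subset _ _ _ hJ₀S)).mul_left _)
    refine ⟨la * PA (A' ∪ BJ J₀) * ∏ l ∈ U₁, (l : G), t, ?_, Pool.Agent.Y427.PP.prm_ne_zero ht,
      hT.1, hT.2⟩
    rw [e2, hprod, PA_union hdis, hD]
    ring
  have key' : ∀ J ⊆ s', ∃ E e : G, D * ∏ d ∈ J, d = E * e ^ 2 ∧ e ≠ 0 ∧ GoodP E ∧ GoodL E := by
    intro J hJ
    obtain ⟨J', hJ', e', he', h1⟩ := prod_sub s J hs0 fun δ hδ => hs' δ (hJ hδ)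
    obtain ⟨E, e, h2, he, h3, h4⟩ := key J' hJ'
    refine ⟨E, e * e', ?_, mul_ne_zero he he', h3, h4⟩
    rw [h1, ← mul_assoc, h2]
    ring
  constructor
  · refine hfin F ι s' D hD0 hs0' hgen fun J hJ => ?_
    obtain ⟨E, e, h1, h2, h3, _⟩ := key' J hJ
    rw [h1]
    exact goodP_sq h2 h3
  · intro m hm
    refine heul hloc F ι s' D hD0 hs0' (dvd_mul_right _ _) hgen (fun J hJ => ?_) m hm
    obtain ⟨E, e, h1, _, _, h4⟩ := key' J hJ
    exact ⟨E, e, h1, h4⟩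

include hS in
/-- the final theorem over number fields -/
theorem last2 (hfin : SFIN) (hloc : SLOC) (heul : SEULF) :
    (∀ X : ℝ, (Tws S X).Finite) ∧
    (∃ c : ℝ, 0 < c ∧ ∀ X : ℝ, 1 ≤ X → c * X ≤ ((Tws S X).ncard : ℝ)) ∧
    ∀ ε : ℝ, 0 < ε → ∃ X₀ : ℝ, ∀ X : ℝ, X₀ ≤ X →
      (al ^ (2 ^ #S) - ε) * ((Tws S X).ncard : ℝ) ≤ ({d ∈ Tws S X | Holds S d}.ncard : ℝ) := by
  classical
  obtain ⟨hfin0, hlow, -⟩ := last S hS
  refine ⟨hfin0, hlow, ?_⟩
  have hrec := Pool.Agent.Y901.PP.Rec.t_REC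
  have hmult := Pool.Agent.Y944.PP.t_MULT
  have hmean := Pool.Agent.Y497.PP.t_MEAN hmult
  have hann := Pool.Agent.Y808.PP.t_ANN
  have hdisc := Pool.Agent.Y808.PP.t_DISC
  have hfac := Pool.Agent.Y427.PP.t_FAC
  have h1 := Pool.Agent.Y658.PP.t_A1
  have h2 := Pool.Agent.Y363.PP.t_A2 hfac
  have h5 := Pool.Agent.Y954.PP.t_A5 hfac
  have hbox1 := Pool.Agent.Y678.PP.t_BOX1 hmult hmean hdisc hfac
  have hbox := Pool.Agent.Y692.PP.t_BOX hmult hfac hbox1
  have h4 := Pool.Agent.Y678.PP.t_A4 hrec hann hfac hbox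
  have hb := basic_gs hrec
  have hHR := Pool.Agent.Y665.PP.t_HR gN gs gt hb h1
  obtain ⟨r1, -, -, -, -, -⟩ := Pool.Agent.Y287.JP.t_RES hb h2 h4 h5 hHR (QS S hS)
  have hcard : ∀ X : ℝ, (Tws S X).ncard = #(FF (nQ (QS S hS)) X) := by
    intro X
    rw [Tws_eq S hS r1, Set.ncard_coe_finset, Finset.card_image_of_injective _ (phi_inj S hS)]
  intro ε hε
  set T : Finset (Finset Pr) := S.powerset.image BJ with hT
  have hTc : #T ≤ 2 ^ #S := by
    rw [← Finset.card_powerset]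
    exact Finset.card_image_le
  have hal0 : (0 : ℝ) ≤ al := by
    have := Pool.Agent.Y944.PP.t_NUM
    have h : (419 / 1000 : ℝ) < al := this
    linarith
  have hal : al ^ (2 ^ #S) ≤ al ^ #T := pow_le_pow_of_le_one hal0 al_le_one hTc
  have hTQ : ∀ j : T, (j : Finset Pr) ⊆ QS S hS := by
    intro j
    obtain ⟨J, hJ, hj⟩ := mem_image.mp j.2
    rw [← hj]
    exact BJ_sub S hS J (mem_powerset.mp hJ)
  have hd := density_joint T (fun j => (j : Finset Pr)) Subtype.val_injective (QS S hS) hTQ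
  rw [Fintype.card_coe] at hd
  have hev := hd.eventually (lt_mem_nhds (show al ^ (2 ^ #S) - ε < al ^ #T by linarith))
  obtain ⟨n₀, hn₀⟩ := eventually_atTop.mp hev
  refine ⟨n₀ + 2, fun X hX => ?_⟩
  have hX1 : (1 : ℝ) ≤ X := by
    have : (0 : ℝ) ≤ n₀ := Nat.cast_nonneg _
    linarith
  have hfl : n₀ + 1 ≤ ⌊X⌋₊ := Nat.le_floor (by push_cast; linarith)
  have h6 := hn₀ (⌊X⌋₊ - 1) (by omega)
  rw [← FF_floor' r1 hX1] at h6
  have hpos : (0 : ℝ) < #(FF (nQ (QS S hS)) X) := by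
    have : (∅ : Finset (PQ (QS S hS))) ∈ FF (nQ (QS S hS)) X := by
      rw [mem_FF r1]
      unfold NN
      rw [Finset.prod_empty]
      push_cast
      exact hX1
    exact_mod_cast Finset.card_pos.mpr ⟨_, this⟩
  rw [lt_div_iff₀ hpos] at h6
  rw [hcard]
  refine h6.le.trans ?_
  have h7 : #((FF (nQ (QS S hS)) X).filter fun A =>
      ∀ j : T, XX gs gt (A.map (emQ (QS S hS)) ∪ (j : Finset Pr)) = 1) ≤
      {d ∈ Tws S X | Holds S d}.ncard := by
    set V : Finset G := ((FF (nQ (QS S hS)) X).filter fun A =>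
      ∀ j : T, XX gs gt (A.map (emQ (QS S hS)) ∪ (j : Finset Pr)) = 1).image
        fun A => PA (A.map (emQ (QS S hS))) with hV
    have h8 : (V : Set G) ⊆ {d ∈ Tws S X | Holds S d} := by
      intro d hd
      rw [Finset.mem_coe, hV, Finset.mem_image] at hd
      obtain ⟨A, hA, rfl⟩ := hd
      rw [Finset.mem_filter] at hA
      refine ⟨?_, holds_of S hS hfin hloc heul A fun J hJ => ?_⟩
      · rw [Tws_eq S hS r1]
        exact Finset.mem_coe.mpr (Finset.mem_image_of_mem _ hA.1)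
      · have h9 := hA.2 ⟨BJ J, mem_image_of_mem _ (mem_powerset.mpr hJ)⟩
        show XX gs gt _ = 1
        convert h9
    have h12 : #V = #((FF (nQ (QS S hS)) X).filter fun A =>
        ∀ j : T, XX gs gt (A.map (emQ (QS S hS)) ∪ (j : Finset Pr)) = 1) := by
      rw [hV, Finset.card_image_of_injective _ (phi_inj S hS)]
    rw [← h12, ← Set.ncard_coe_finset]
    exact Set.ncard_le_ncard h8 ((hfin0 X).subset fun d hd => hd.1)
  refine le_trans (le_of_eq ?_) (show ((#((FF (nQ (QS S hS)) X).filter fun A =>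
      ∀ j : T, XX gs gt (A.map (emQ (QS S hS)) ∪ (j : Finset Pr)) = 1) : ℕ) : ℝ) ≤ _ by
    exact_mod_cast h7)
  congr!

end

end Pool.Agent.Y690.JP.MF
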