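import Pool.Agent.Y690.JP.Last

/-!
# Adding leaves: the infinite tower
-/

set_option autoImplicit false

open Finset

namespace Pool.Agent.Y690.JP

open Pool.Agent.Y690.PP Pool.Agent.Y690.PP.Fn

open Classical in
lemma cc_ind (A W : Finset Pr) (hW : W ⊆ A) (p : A) :
    cc gs gt A (fun p : A => if (p : Pr) ∈ W then (1 : ZMod 2) else 0) p =
      if (p : Pr) ∈ W then gt p * ∏ q ∈ A \ W, gs q p else ∏ q ∈ W, gs q p := by
  set ν : A → ZMod 2 := fun p => if (p : Pr) ∈ W then 1 else 0 with hν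
  have h2 := prod_ind A W hW (fun q => gs q p) (ν p)
  have h3 : cc gs gt A ν p = gt p ^ (ν p).val *
      (if ν p = 1 then ∏ q ∈ A \ W, gs q p else ∏ q ∈ W, gs q p) := by
    unfold cc
    exact congrArg (fun z => gt p ^ (ν p).val * z) h2
  rw [h3]
  by_cases h : (p : Pr) ∈ W
  · have h5 : ν p = 1 := if_pos h
    have hval1 : ((1 : ZMod 2)).val = 1 := rfl
    rw [if_pos h, if_pos h5, h5, hval1, pow_one]
  · have h5 : ν p = 0 := if_neg h
    have h6 : ν p ≠ 1 := by rw [h5]; decide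
    have hval0 : ((0 : ZMod 2)).val = 0 := rfl
    rw [if_neg h, if_neg h6, h5, hval0, pow_zero, one_mul]

open Classical in
/-- the converse of `KER` -/
theorem TK_of (A : Finset Pr) (h : ∀ V : Finset Pr, V ⊆ A →
    (∀ p ∈ V, gt p * ∏ q ∈ A \ V, gs q p = 1) → (∀ p ∈ A \ V, ∏ q ∈ V, gs q p = 1) → V = ∅) :
    TK A := by
  show XX gs gt A = 1
  unfold XX
  rw [Finset.card_eq_one]
  refine ⟨0, ?_⟩
  ext ν
  rw [mem_singleton]
  constructor
  · intro hν
    unfold Kn at hν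
    rw [mem_filter] at hν
    have hν1 := hν.2
    set W : Finset Pr := A.filter fun p => ∃ h : p ∈ A, ν ⟨p, h⟩ = 1 with hW
    have hmem : ∀ p : A, (p : Pr) ∈ W ↔ ν p = 1 := by
      intro p
      rw [hW, mem_filter]
      exact ⟨fun h => h.2.2, fun h => ⟨p.2, p.2, h⟩⟩
    have hνW : ν = fun p : A => if (p : Pr) ∈ W then (1 : ZMod 2) else 0 := by
      funext p
      by_cases hp : ν p = 1
      · rw [if_pos ((hmem p).mpr hp), hp]
      · rw [if_neg (fun h => hp ((hmem p).mp h))]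
        revert hp
        generalize ν p = c
        fin_cases c
        · intro _; rfl
        · intro h; exact absurd rfl h
    have hWA : W ⊆ A := filter_subset _ _
    have hW0 : W = ∅ := by
      refine h W hWA (fun p hp => ?_) (fun p hp => ?_)
      · have h1 := hν1 ⟨p, hWA hp⟩
        rw [hνW, cc_ind A W hWA] at h1
        simp only [if_pos hp] at h1
        exact h1
      · rw [mem_sdiff] at hp
        have h1 := hν1 ⟨p, hp.1⟩
        rw [hνW, cc_ind A W hWA] at h1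
        simp only [if_neg hp.2] at h1
        exact h1
    rw [hνW, hW0]
    funext p
    simp
  · rintro rfl
    unfold Kn
    rw [mem_filter]
    refine ⟨mem_univ _, fun p => ?_⟩
    unfold cc
    simp

open Classical in
/-- adding leaves to the graph -/
theorem TK_union {A U : Finset Pr} (hA : TK A) (ht : ∀ p ∈ U, gt p = -1)
    (h1 : ∀ p ∈ U, ∀ q ∈ A, gs q p = 1 ∧ gs p q = 1)
    (h2 : ∀ p ∈ U, ∀ q ∈ U, q ≠ p → gs q p = 1) : TK (A ∪ U) := by
  refine TK_of _ fun V hV hc1 hc2 => ?_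
  have hb := basic_gs Pool.Agent.Y901.PP.Rec.t_REC
  have hAU : Disjoint A U := by
    rw [Finset.disjoint_left]
    intro p hp hp'
    have h3 := (h1 p hp' p hp).1
    rw [hb.s_self] at h3
    norm_num at h3
  have hVU : ∀ p ∈ V, p ∉ U := by
    intro p hp hpU
    have h3 := hc1 p hp
    have h4 : ∏ q ∈ (A ∪ U) \ V, gs q p = 1 := by
      refine Finset.prod_eq_one fun q hq => ?_
      rw [mem_sdiff, mem_union] at hq
      rcases hq.1 with h | h
      · exact (h1 p hpU q h).1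
      · refine h2 p hpU q h fun h5 => ?_
        rw [h5] at hq
        exact hq.2 hp
    rw [h4, ht p hpU] at h3
    norm_num at h3
  have hVA : V ⊆ A := by
    intro p hp
    rcases mem_union.mp (hV hp) with h | h
    · exact h
    · exact absurd h (hVU p hp)
  refine Pool.Agent.Y259.PP.t_KER A hA V hVA (fun p hp => ?_) (fun p hp => ?_)
  · have h3 := hc1 p hp
    have h4 : (A ∪ U) \ V = (A \ V) ∪ U := by
      ext q
      rw [mem_sdiff, mem_union, mem_union, mem_sdiff]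
      constructor
      · rintro ⟨h | h, h'⟩
        · exact Or.inl ⟨h, h'⟩
        · exact Or.inr h
      · rintro (⟨h, h'⟩ | h)
        · exact ⟨Or.inl h, h'⟩
        · exact ⟨Or.inr h, fun h' => hVU q h' h⟩
    have h5 : Disjoint (A \ V) U := hAU.mono_left sdiff_subset
    rw [h4, Finset.prod_union h5] at h3
    have h6 : ∏ q ∈ U, gs q p = 1 :=
      Finset.prod_eq_one fun q hq => (h1 q hq p (hVA hp)).2
    rw [h6, mul_one] at h3
    convert h3
  · have h3 := hc2 p (by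
      rw [mem_sdiff] at hp ⊢
      exact ⟨mem_union_left _ hp.1, hp.2⟩)
    exact h3

/-! ### The rational primes `3` modulo `8` -/

lemma prm_neg {l : ℕ} (h8 : l % 8 = 3) : Prm (-(l : G)) := by
  obtain ⟨k, hk⟩ : ∃ k : ℤ, (l : ℤ) + 1 = 4 * k := ⟨((l : ℤ) + 1) / 4, by omega⟩
  refine ⟨⟨-k, k⟩, ?_⟩
  rw [Zsqrtd.ext_iff]
  constructor
  · simp
    linarith
  · simp

lemma sg_neg {l : ℕ} (h8 : l % 8 = 3) : sg (-(l : G)) = -1 := by
  unfold sg
  rw [if_neg]
  rintro ⟨x, y, ⟨z, hz⟩, h⟩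
  rw [Zsqrtd.ext_iff] at h
  obtain ⟨h1, h2⟩ := h
  simp at h1 h2
  omega

/-- `-l` as a prime of `ℤ[i]` -/
def lp (l : ℕ) (hl : l.Prime) (h8 : l % 8 = 3) : Pr :=
  ⟨-(l : G), by
    have : Fact l.Prime := ⟨hl⟩
    exact ⟨(GaussianInt.prime_of_nat_prime_of_mod_four_eq_three l (by omega)).neg, prm_neg h8⟩⟩

lemma gt_lp (l : ℕ) (hl : l.Prime) (h8 : l % 8 = 3) : gt (lp l hl h8) = -1 := by
  unfold gt lp
  rw [sg_neg h8]
  norm_num

lemma gs_lp (l : ℕ) (hl : l.Prime) (h8 : l % 8 = 3) (q : Pr) (hq : q.1 ∣ (l : G) - 1) :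
    gs q (lp l hl h8) = 1 := by
  unfold gs
  have h1 : qs q.1 (lp l hl h8).1 = 1 := by
    unfold qs lp
    rw [if_neg, if_pos]
    · refine ⟨⟨0, 1⟩, ?_⟩
      have e : (⟨0, 1⟩ : G) * ⟨0, 1⟩ - -(l : G) = (l : G) - 1 := by
        rw [Zsqrtd.ext_iff]
        constructor
        · simp
          ring
        · simp
      rw [e]
      exact hq
    · intro h
      have h2 : q.1 ∣ (l : G) := by
        have := (dvd_neg (a := q.1) (b := (l : G))).mp h
        exact this
      have h3 : q.1 ∣ 1 := by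
        have := dvd_sub h2 hq
        rwa [sub_sub_cancel] at this
      exact q.2.1.not_unit (isUnit_of_dvd_one h3)
  rw [h1]
  norm_num

lemma sq_or (l : ℕ) (hl : l.Prime) (h8 : l % 8 = 3) (a : ℤ) :
    ∃ b : G, (l : G) ∣ b * b - (a : G) := by
  have hf : Fact l.Prime := ⟨hl⟩
  have hdv : ∀ n : ℤ, ((n : ℤ) : ZMod l) = 0 → (l : G) ∣ ((n : ℤ) : G) := by
    intro n hn
    rw [ZMod.intCast_zmod_eq_zero_iff_dvd] at hn
    obtain ⟨c, hc⟩ := hn
    refine ⟨(c : G), ?_⟩
    rw [hc]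
    push_cast
    ring
  have h2 : ringChar (ZMod l) ≠ 2 := by
    rw [ZMod.ringChar_zmod_n]
    omega
  have hor : IsSquare ((a : ℤ) : ZMod l) ∨ IsSquare (-((a : ℤ) : ZMod l)) := by
    by_contra hcon
    push Not at hcon
    obtain ⟨h3, h4⟩ := hcon
    have h5 := quadraticChar_neg_one_iff_not_isSquare.mpr h3
    have h6 := quadraticChar_neg_one_iff_not_isSquare.mpr h4
    have h7 : quadraticChar (ZMod l) (-1) = 1 := by
      have h8' : quadraticChar (ZMod l) (-((a : ℤ) : ZMod l)) =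
          quadraticChar (ZMod l) (-1) * quadraticChar (ZMod l) ((a : ℤ) : ZMod l) := by
        rw [← map_mul, neg_one_mul]
      rw [h5, h6] at h8'
      linarith
    have h9 : IsSquare (-1 : ZMod l) := (quadraticChar_one_iff_isSquare (by simp)).mp h7
    rw [ZMod.exists_sq_eq_neg_one_iff] at h9
    omega
  rcases hor with ⟨c, hc⟩ | ⟨c, hc⟩
  · refine ⟨((c.val : ℤ) : G), ?_⟩
    have h3 := hdv ((c.val : ℤ) * (c.val : ℤ) - a) (by
      push_cast
      rw [ZMod.natCast_zmod_val, ← hc, sub_self])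
    push_cast at h3 ⊢
    exact h3
  · refine ⟨⟨0, 1⟩ * ((c.val : ℤ) : G), ?_⟩
    have h3 := hdv (-((c.val : ℤ) * (c.val : ℤ)) - a) (by
      push_cast
      rw [ZMod.natCast_zmod_val, ← hc, neg_neg, sub_self])
    have e : (⟨0, 1⟩ : G) * ((c.val : ℤ) : G) * (⟨0, 1⟩ * ((c.val : ℤ) : G)) - (a : G) =
        ((-((c.val : ℤ) * (c.val : ℤ)) - a : ℤ) : G) := by
      have e1 : (⟨0, 1⟩ : G) * ⟨0, 1⟩ = -1 := by decide
      calc _ = (⟨0, 1⟩ : G) * ⟨0, 1⟩ * (((c.val : ℤ) : G) * ((c.val : ℤ) : G)) - (a : G) := by ring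
        _ = _ := by rw [e1]; push_cast; ring
    rw [e]
    exact h3

lemma gs_lp_lp (l l' : ℕ) (hl : l.Prime) (h8 : l % 8 = 3) (hl' : l'.Prime) (h8' : l' % 8 = 3)
    (hne : lp l hl h8 ≠ lp l' hl' h8') : gs (lp l hl h8) (lp l' hl' h8') = 1 := by
  unfold gs
  have h1 : qs (lp l hl h8).1 (lp l' hl' h8').1 = 1 := by
    unfold qs
    rw [if_neg, if_pos]
    · obtain ⟨b, hb⟩ := sq_or l hl h8 (-(l' : ℤ))
      refine ⟨b, ?_⟩
      unfold lp
      simp only
      rw [neg_dvd]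
      push_cast at hb
      exact hb
    · intro h
      apply hne
      have h3 : Associated (lp l hl h8).1 (lp l' hl' h8').1 :=
        (lp l hl h8).2.1.associated_of_dvd (lp l' hl' h8').2.1 h
      exact Subtype.ext (Pool.Agent.Y427.PP.prm_assoc h3 (lp l hl h8).2.2 (lp l' hl' h8').2.2)
  rw [h1]
  norm_num

open Classical in
/-- the tower above a good set -/
theorem tower (A : Finset Pr) (hA : TK A) (U : Finset ℕ)
    (hU : ∀ l ∈ U, l.Prime ∧ l % 8 = 3 ∧ ∀ q ∈ A, q.1 ∣ (l : G) - 1) :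
    GoodP (la * PA A * ∏ l ∈ U, (l : G)) ∧ GoodL (la * PA A * ∏ l ∈ U, (l : G)) := by
  have hb := basic_gs Pool.Agent.Y901.PP.Rec.t_REC
  set U' : Finset Pr := U.attach.image fun l => lp l.1 (hU l.1 l.2).1 (hU l.1 l.2).2.1 with hU'
  have hmem : ∀ p ∈ U', ∃ (l : ℕ) (hl : l.Prime) (h8 : l % 8 = 3), l ∈ U ∧ p = lp l hl h8 := by
    intro p hp
    rw [hU', mem_image] at hp
    obtain ⟨l, _, rfl⟩ := hp
    exact ⟨l.1, (hU l.1 l.2).1, (hU l.1 l.2).2.1, l.2, rfl⟩
  have hT : TK (A ∪ U') := by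
    refine TK_union hA ?_ ?_ ?_
    · intro p hp
      obtain ⟨l, hl, h8, _, rfl⟩ := hmem p hp
      exact gt_lp l hl h8
    · intro p hp q hq
      obtain ⟨l, hl, h8, hlU, rfl⟩ := hmem p hp
      have h1 := gs_lp l hl h8 q ((hU l hlU).2.2 q hq)
      exact ⟨h1, by rw [hb.s_symm]; exact h1⟩
    · intro p hp q hq hne
      obtain ⟨l, hl, h8, _, rfl⟩ := hmem p hp
      obtain ⟨l', hl', h8', _, rfl⟩ := hmem q hq
      exact gs_lp_lp l' l hl' h8' hl h8 hne
  have hdis : Disjoint A U' := by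
    rw [Finset.disjoint_left]
    intro p hp hp'
    obtain ⟨l, hl, h8, hlU, rfl⟩ := hmem p hp'
    have h1 := gs_lp l hl h8 (lp l hl h8) ((hU l hlU).2.2 _ hp)
    rw [hb.s_self] at h1
    norm_num at h1
  have hprod : PA U' = ∏ l ∈ U, (-(l : G)) := by
    unfold PA
    rw [hU', Finset.prod_image, ← Finset.prod_attach U]
    · rfl
    · intro l _ l' _ h
      have h1 : (-(l.1 : G)) = -(l'.1 : G) := congrArg Subtype.val h
      have h2 : ((l.1 : ℕ) : G) = ((l'.1 : ℕ) : G) := neg_injective h1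
      exact Subtype.ext (by exact_mod_cast h2)
  have h1 := good _ hT
  rw [PA_union hdis, hprod] at h1
  have h2 : ∏ l ∈ U, (-(l : G)) = ∏ l ∈ U, (l : G) ∨ ∏ l ∈ U, (-(l : G)) = -∏ l ∈ U, (l : G) := by
    rw [Finset.prod_neg]
    rcases neg_one_pow_eq_or G #U with h | h
    · left; rw [h, one_mul]
    · right; rw [h, neg_one_mul]
  rcases h2 with h2 | h2
  · rw [h2, ← mul_assoc] at h1
    exact h1
  · rw [h2] at h1
    have e : la * PA A * ∏ l ∈ U, (l : G) = -(la * (PA A * -∏ l ∈ U, (l : G))) := by ring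
    rw [e]
    exact ⟨Pool.Agent.Y259.PP.t_INV.2.2.1 _ h1.1, Pool.Agent.Y259.PP.t_INV.1 _ h1.2⟩

end Pool.Agent.Y690.JP
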