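import Pool.Agent.Y690.JP.Glue
import Pool.Agent.Y690.PP.Mo

/-!
# The joint moments
-/

set_option autoImplicit false
set_option linter.unusedSectionVars false

open Finset Filter

namespace Pool.Agent.Y690.JP

open Pool.Agent.Y690.PP hiding wt SABSa SABSc Gd ML sum_ML ML_est glue wt_abs SCOMB wt_fam sum_lab

section

variable {P : Type} {N : P → ℕ} {s : P → P → ℝ} {X : Type} [AddCommGroup X] {ch : X → P → ℝ}
variable {I : Type} [Fintype I] [DecidableEq I]

lemma wt_fam (S : Finset P) (l : S → I) (w : ℝ) (e : I → I → ℕ) (τ : I → X) :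
    wt s ch w e τ (fam S l) = ∏ p : S, (w * ch (τ (l p)) p * ∏ q : S, s q p ^ e (l q) (l p)) := by
  unfold wt
  rw [Finset.prod_mul_distrib, Finset.prod_mul_distrib]
  congr 1
  · congr 1
    · rw [← Finset.prod_pow_eq_pow_sum, ← prod_fam S l (fun _ _ => w)]
      refine Finset.prod_congr rfl fun u _ => ?_
      rw [Finset.prod_const]
    · rw [← prod_fam S l (fun u p => ch (τ u) p)]
  · have h1 : ∀ u v, sy s (fam S l u) (fam S l v) ^ e u v =
        ∏ q ∈ fam S l u, ∏ p ∈ fam S l v, s q p ^ e u v := by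
      intro u v
      unfold sy
      rw [← Finset.prod_pow]
      refine Finset.prod_congr rfl fun q _ => ?_
      rw [← Finset.prod_pow]
    simp only [h1]
    have h2 : ∀ u, ∏ v, ∏ q ∈ fam S l u, ∏ p ∈ fam S l v, s q p ^ e u v =
        ∏ q ∈ fam S l u, ∏ p : S, s q p ^ e u (l p) := by
      intro u
      rw [Finset.prod_comm]
      refine Finset.prod_congr rfl fun q _ => ?_
      exact prod_fam S l (fun v p => s q p ^ e u v)
    simp only [h2]
    rw [prod_fam S l (fun u q => ∏ p : S, s q p ^ e u (l p)), Finset.prod_comm]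

open Classical in
/-- the sum over labelled sets -/
theorem sum_lab (hb : Basic N s (fun _ => 1)) (w : ℝ) (e : I → I → ℕ) (τ : I → X) (x : ℝ) :
    ∑ S ∈ FF N x, ∑ l : S → I,
      ∏ p : S, (w * ch (τ (l p)) p * ∏ q : S, s q p ^ e (l q) (l p)) =
    ∑ A ∈ TT I N x, wt s ch w e τ A := by
  have hNN : ∀ A : I → Finset P, (∀ u v, u ≠ v → Disjoint (A u) (A v)) →
      NN N (univ.biUnion A) = ∏ u, NN N (A u) := by
    intro A hA
    unfold NN
    rw [Finset.prod_biUnion fun u _ v _ huv => hA u v huv]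
  have hmaps : ∀ A ∈ TT I N x, univ.biUnion A ∈ FF N x := by
    intro A hA
    rw [mem_TT hb] at hA
    rw [mem_FF hb, hNN A hA.1]
    exact hA.2
  rw [← Finset.sum_fiberwise_of_maps_to hmaps]
  refine Finset.sum_congr rfl fun S hS => ?_
  have hbu : ∀ l : S → I, univ.biUnion (fam S l) = S := by
    intro l
    ext p
    rw [mem_biUnion]
    constructor
    · rintro ⟨u, -, hu⟩
      exact (mem_fam.mp hu).1
    · exact fun h => ⟨l ⟨p, h⟩, mem_univ _, mem_fam.mpr ⟨h, rfl⟩⟩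
  have hdis : ∀ (l : S → I) u v, u ≠ v → Disjoint (fam S l u) (fam S l v) := by
    intro l u v huv
    rw [Finset.disjoint_left]
    intro p hp hp'
    obtain ⟨h1, h2⟩ := mem_fam.mp hp
    obtain ⟨_, h3⟩ := mem_fam.mp hp'
    exact huv (h2.symm.trans h3)
  refine Finset.sum_bij (fun l _ => fam S l) ?_ ?_ ?_ ?_
  · intro l _
    rw [mem_filter, mem_TT hb]
    refine ⟨⟨hdis l, ?_⟩, hbu l⟩
    rw [← hNN _ (hdis l), hbu l]
    exact (mem_FF hb).mp hS
  · intro l _ l' _ h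
    funext p
    have h1 : (p : P) ∈ fam S l (l p) := mem_fam.mpr ⟨p.2, rfl⟩
    have h2 : fam S l (l p) = fam S l' (l p) := congrFun h (l p)
    rw [h2] at h1
    obtain ⟨_, h3⟩ := mem_fam.mp h1
    exact h3.symm
  · intro A hA
    rw [mem_filter, mem_TT hb] at hA
    obtain ⟨⟨hd, _⟩, hU⟩ := hA
    have h1 : ∀ p : S, ∃ u, (p : P) ∈ A u := by
      intro p
      have h2 : (p : P) ∈ univ.biUnion A := by rw [hU]; exact p.2
      obtain ⟨u, _, hu⟩ := mem_biUnion.mp h2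
      exact ⟨u, hu⟩
    choose l hl using h1
    refine ⟨l, mem_univ _, ?_⟩
    funext u
    ext p
    rw [mem_fam]
    constructor
    · rintro ⟨h, h2⟩
      have := hl ⟨p, h⟩
      rw [h2] at this
      exact this
    · intro h
      have h2 : p ∈ S := by
        rw [← hU]
        exact mem_biUnion.mpr ⟨u, mem_univ _, h⟩
      refine ⟨h2, ?_⟩
      by_contra h3
      exact (Finset.disjoint_left.mp (hd _ _ h3) (hl ⟨p, h2⟩)) h
  · intro l _
    rw [wt_fam]

end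

open Classical in
lemma comb_sum (hCOMB : SCOMB) (Q0 : Type) [Fintype Q0] (K : ℕ) (T : Type) [Fintype T]
    (f : Fin K → T) (B : T → Finset Q0) (hB : Function.Injective B) (t0 : Q0 → ℝ)
    (s0 : Q0 → Q0 → ℝ) (h1 : ∀ b, t0 b = 1 ∨ t0 b = -1)
    (h2 : ∀ b b', b ≠ b' → s0 b b' = 1 ∨ s0 b b' = -1) (h3 : ∀ b b', s0 b b' = s0 b' b)
    (J : Q0 → Finset (Fin K)) (hJ : ∀ b i, i ∈ J b ↔ b ∈ B (f i)) :
    ∑ β : Fin K → Q0 → ZMod 2 × ZMod 2, cst J t0 s0 β * (ng J β : ℝ) =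
      ∏ j : T, ∏ i ∈ range #(univ.filter fun i => f i = j), ((2 : ℝ) ^ i + 1) := by
  have e : J = fun b => univ.filter fun i => b ∈ B (f i) := by
    funext b
    ext i
    simp [hJ]
  rw [e]
  exact hCOMB Q0 K T f B hB t0 s0 h1 h2 h3

lemma sum_inst {α : Type} {i1 i2 : Fintype α} {f : α → ℝ} {c : ℝ}
    (h : @Finset.sum α ℝ _ (@Finset.univ α i1) f = c) :
    @Finset.sum α ℝ _ (@Finset.univ α i2) f = c := by
  rw [← h, Subsingleton.elim i1 i2]

open Classical in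
/-- The joint moments of the sizes of the kernels. -/
theorem moments (hABSa : TABSa) (hABSc : TABSc) (hRES : SRES) (hA3 : SA3) (hKER : SKER)
    (hCOMA : SCOMA) (hCOMB : SCOMB) (hcomb : Pool.Agent.Y690.PP.SCOMB)
    (hbb : ∀ {P : Type} (N : P → ℕ) (s : P → P → ℝ) (t : P → ℝ) (I : Type) [Fintype I]
      [DecidableEq I] (w : ℝ), Basic N s t → A2 N → HR N → 0 ≤ w → w ≤ 1 → SABSb N I w)
    (hb : Basic gN gs gt) (h2 : A2 gN) (h3 : A3 gN gs gt) (h4 : A4 gN gs) (h5 : A5 gN)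
    (hHR : HR gN) (T : Type) [Fintype T] (B : T → Finset Pr) (hB : Function.Injective B)
    (Q : Finset Pr) (hQ : ∀ j, B j ⊆ Q) (K : ℕ) (f : Fin K → T) :
    Tendsto (fun x : ℝ => (∑ A ∈ FF (nQ Q) x, ∏ i, (XX gs gt (A.map (emQ Q) ∪ B (f i)) : ℝ)) /
      #(FF (nQ Q) x)) atTop
      (nhds (∏ j : T, ∏ i ∈ range #(univ.filter fun i => f i = j), ((2 : ℝ) ^ i + 1))) := by
  obtain ⟨r1, r2, r3, r4, r5, r6⟩ := hRES hb h2 h4 h5 hHR Q
  have r7 := hA3 hb h2 h3 Q
  obtain ⟨c1, c2, -⟩ := hcomb K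
  set J : Q → Finset (Fin K) := JB (fun i => B (f i)) with hJ
  set cs : (Fin K → Q → ZMod 2 × ZMod 2) → ℝ :=
    cst J (fun b : Q => gt b.1) (fun b b' : Q => gs b.1 b'.1) with hcs
  have hw0 : (0 : ℝ) < (1 / 2 : ℝ) ^ K := by positivity
  have hw1 : (1 / 2 : ℝ) ^ K ≤ 1 := pow_le_one₀ (by norm_num) (by norm_num)
  -- one term
  have key : ∀ β : Fin K → Q → ZMod 2 × ZMod 2,
      Tendsto (fun x : ℝ => (∑ A ∈ TT (Ix K) (nQ Q) x,
        wt (sQ Q) (chQ Q) ((1 / 2 : ℝ) ^ K) ee (tt J β) A) / #(FF (nQ Q) x)) atTop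
        (nhds (ng J β : ℝ)) := by
    intro β
    have h := glue r1 r2 hw0.le (n := 2 ^ K) (by push_cast; rw [← mul_pow]; norm_num)
      (hABSa (nQ Q) (sQ Q) (chQ Q) (Ix K) ((1 / 2 : ℝ) ^ K) ee (tt J β) r1 r2 r3 r4 hw0.le hw1 ee_self)
      (hbb (nQ Q) (sQ Q) (fun _ => 1) (Ix K) _ r1 r3 r6 hw0.le hw1)
      (hABSc (nQ Q) (sQ Q) (chQ Q) (Ix K) ((1 / 2 : ℝ) ^ K) ee (tt J β) r1 r2 r3 r7 r6 hw0 hw1
        ee_self) r5
      (fun Λ hΛ => c1 Λ fun u hu v hv => (even_ee u v).mp (hΛ u hu v hv))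
      (fun Λ hΛ hn => by
        have hΛ' : ∀ u ∈ Λ, ∀ v ∈ Λ, QQ (u + v) = 0 := fun u hu v hv =>
          (even_ee u v).mp (hΛ u hu v hv)
        obtain ⟨d1, -⟩ := c2 Λ hΛ' hn
        refine ⟨fun v hv => ?_, hCOMA Q K J β Λ hΛ' hn⟩
        obtain ⟨⟨u, hu, hu'⟩, ⟨u1, hu1, hu1'⟩⟩ := d1 v hv
        exact ⟨⟨u, hu, (even_ee u v).mpr hu'⟩, ⟨u1, hu1, (odd_ee u1 v).mpr hu1'⟩⟩)
    have hcard : (#((univ : Finset (Finset (Ix K))).filter fun Λ => Gd ee (tt J β) (2 ^ K) Λ) : ℝ) =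
        (ng J β : ℝ) := by
      unfold ng
      congr 1
      refine congrArg Finset.card (Finset.filter_congr fun Λ _ => ?_)
      unfold Gd
      constructor
      · exact fun h => ⟨fun u hu v hv => (even_ee u v).mp (h.1 u hu v hv), h.2.1, h.2.2⟩
      · exact fun h => ⟨fun u hu v hv => (even_ee u v).mpr (h.1 u hu v hv), h.2.1, h.2.2⟩
    rw [hcard] at h
    exact h
  have hsum := tendsto_finsetSum (univ : Finset (Fin K → Q → ZMod 2 × ZMod 2)) fun β _ =>
    (key β).const_mul (cs β)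
  -- the limit
  have hlim : ∑ β : Fin K → Q → ZMod 2 × ZMod 2, cs β * (ng J β : ℝ) =
      ∏ j : T, ∏ i ∈ range #(univ.filter fun i => f i = j), ((2 : ℝ) ^ i + 1) := by
    set B' : T → Finset Q := fun j => univ.filter fun b => b.1 ∈ B j with hB'
    have hinj : Function.Injective B' := by
      intro j j' h
      apply hB
      ext b
      constructor
      · intro hb
        have h1 : (⟨b, hQ j hb⟩ : Q) ∈ B' j := by rw [hB']; simp [hb]
        rw [h, hB'] at h1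
        simpa using h1
      · intro hb
        have h1 : (⟨b, hQ j' hb⟩ : Q) ∈ B' j' := by rw [hB']; simp [hb]
        rw [← h, hB'] at h1
        simpa using h1
    have hmem : ∀ b i, i ∈ J b ↔ b ∈ B' (f i) := by
      intro b i
      rw [hJ, hB']
      unfold JB
      simp
    have h := comb_sum hCOMB Q K T f B' hinj (fun b : Q => gt b.1) (fun b b' : Q => gs b.1 b'.1)
      (fun b => hb.t_val b.1) (fun b b' hne => hb.s_val b.1 b'.1 fun h => hne (Subtype.ext h))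
      (fun b b' => hb.s_symm b.1 b'.1) J hmem
    exact sum_inst h
  rw [← hlim]
  refine hsum.congr fun x => ?_
  rw [Finset.sum_congr rfl fun A _ => hKER hb Q K (fun i => B (f i)) (fun i => hQ (f i)) A,
    Finset.sum_comm]
  rw [Finset.sum_div]
  refine Finset.sum_congr rfl fun β _ => ?_
  rw [← Finset.mul_sum, mul_div_assoc]
  congr 2
  exact (sum_lab r1 ((1 / 2 : ℝ) ^ K) ee (tt J β) x).symm

end Pool.Agent.Y690.JP
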